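import Pool.Agent.Lib.MP_5349a4_pr.M.Iface3
import Pool.Agent.Lib.MP_5349a4_pr.M.Base

/-!
# Module ATT (9.1): the strong Markov property at the attempts
-/

set_option autoImplicit false
open MeasureTheory Set
open scoped ENNReal NNReal

namespace Pool.Agent.Lib.MP_5349a4_pr.H82

section
variable {d : ℕ}

/-- weight of `z` and of its cluster in `Q` -/
noncomputable def gq (f : Eu d → ℝ≥0∞) (Q : Set (Eu d)) (z : Eu d) : ℝ≥0∞ :=
  f z + ∑' p : (Q : Set (Eu d)), ind (Con (ad 1) Q z p) * f p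

theorem meas_gq (hC : ConMStatement) (hM : MSumStatement) {f : Eu d → ℝ≥0∞}
    (hf : Measurable f) : Measurable fun q : Cfg (Eu d) × Eu d => gq f (pt q.1) q.2 := by
  have h1 := (hC (Eu d) (ad 1) (madj_ad 1)).1
  have h2 := hM.1 (Eu d) (Eu d) (fun z p P => ind (Con (ad 1) P z p) * f p)
    ((measurable_ind h1).mul (hf.comp (measurable_fst.comp measurable_snd)))
  exact (hf.comp measurable_snd).add (h2.comp (measurable_snd.prodMk measurable_fst))

/-- the functional to which the strong Markov property is applied -/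
noncomputable def FF (th : ℕ → ℝ) (j : ℕ) (f : Eu d → ℝ≥0∞) (A B : Set (Eu d)) : ℝ≥0∞ :=
  ind (att A 0 j ∧ good th A 0 j) * nnew A 0 j (gq f B)

theorem meas_att (hI : InvMStatement) (j : ℕ) :
    MeasurableSet {ω : Cfg (Eu d) | att (pt ω) 0 j} := by
  cases j with
  | zero => simp [att]
  | succ j =>
    have h := (hI d j).2.1
    have h0 : Measurable fun ω : Cfg (Eu d) => ((0 : Eu d), ω) :=
      measurable_const.prodMk measurable_id
    have h' := h.comp h0
    exact measurableSet_lt measurable_const h'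

theorem meas_good (hI : InvMStatement) (th : ℕ → ℝ) (j : ℕ) :
    MeasurableSet {ω : Cfg (Eu d) | good th (pt ω) 0 j} := by
  have h := (hI d j).2.2.2.1 th
  have h2 : Measurable fun ω : Cfg (Eu d) => ((0 : Eu d), ω) :=
    measurable_const.prodMk measurable_id
  exact h2 h

theorem meas_FF (hC : ConMStatement) (hM : MSumStatement) (hI : InvMStatement) (th : ℕ → ℝ)
    (j : ℕ) {f : Eu d → ℝ≥0∞} (hf : Measurable f) :
    Measurable fun q : Cfg (Eu d) × Cfg (Eu d) => FF th j f (pt q.1) (pt q.2) := by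
  have h1 : MeasurableSet {q : Cfg (Eu d) × Cfg (Eu d) |
      att (pt q.1) 0 j ∧ good th (pt q.1) 0 j} :=
    measurable_fst ((meas_att hI j).inter (meas_good hI th j))
  have h2 := (hI d j).2.2.2.2.1 (Cfg (Eu d)) (fun ω z => gq f (pt ω) z) (meas_gq hC hM hf)
  have h3 : Measurable fun q : Cfg (Eu d) × Cfg (Eu d) => (q.2, (0 : Eu d), q.1) :=
    measurable_snd.prodMk (measurable_const.prodMk measurable_fst)
  exact (measurable_ind h1).mul (h2.comp h3)

theorem lf_fin {P : Set (Eu d)} (hP : P.Finite) : LF P := fun _ _ => hP.subset inter_subset_left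

theorem det_eq (hD : InvDStatement) {P : Set (Eu d)} (hP : P.Finite) (j : ℕ) (th : ℕ → ℝ)
    (g : Eu d → ℝ≥0∞) :
    ind (att (P ∩ wet P 0 j) 0 j ∧ good th (P ∩ wet P 0 j) 0 j) * nnew (P ∩ wet P 0 j) 0 j g
      = ind (att P 0 j ∧ good th P 0 j) * nnew P 0 j g := by
  obtain ⟨hinv, hlab, -⟩ := (hD d P (P ∩ wet P 0 j) 0 (lf_fin hP)
    (lf_fin (hP.subset inter_subset_left))).2.2.1 j (by ext e; simp)
  have h1 : att (P ∩ wet P 0 j) 0 j ↔ att P 0 j := by
    cases j with
    | zero => simp [att]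
    | succ j =>
      show 1 < lab (P ∩ wet P 0 (j + 1)) 0 j ↔ 1 < lab P 0 j
      rw [hlab j (Nat.lt_succ_self j)]
  have h2 : good th (P ∩ wet P 0 j) 0 j ↔ good th P 0 j := by
    unfold good
    constructor
    · intro h i hi
      rw [← hlab i hi]
      exact h i hi
    · intro h i hi
      rw [hlab i hi]
      exact h i hi
  have h3 : newp (P ∩ wet P 0 j) 0 j = newp P 0 j := by
    cases j with
    | zero => rfl
    | succ j =>
      show inv (P ∩ wet P 0 (j + 1)) 0 (j + 1) \ inv (P ∩ wet P 0 (j + 1)) 0 j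
        = inv P 0 (j + 1) \ inv P 0 j
      rw [hinv (j + 1) le_rfl, hinv j (Nat.le_succ j)]
  have h4 : nnew (P ∩ wet P 0 j) 0 j g = nnew P 0 j g := by
    unfold nnew
    rw [h3]
  rw [ind_congr (and_congr h1 h2), h4]

theorem newp_fin (hD : InvDStatement) {P : Set (Eu d)} (hP : P.Finite) (j : ℕ) :
    (newp P 0 j).Finite := by
  cases j with
  | zero => exact Set.finite_singleton _
  | succ j =>
    exact (((hD d P P 0 (lf_fin hP) (lf_fin hP)).1 (j + 1)).2.2).subset Set.sdiff_subset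

theorem leb_restrict (lam : ℝ≥0) (V A : Set (Eu d)) (hA : MeasurableSet A) :
    (leb lam V).restrict A = leb lam (A ∩ V) := by
  unfold leb
  rw [Measure.restrict_smul, Measure.restrict_restrict hA]

/-- expectation of the weight of a cluster in the unexplored region -/
theorem mean_gq (hd : 1 ≤ d) (hRes : ResStatement) (hCamp : CampStatement) (hC : ConMStatement)
    (hM : MSumStatement) (hProb : ProbStatement) (lam : ℝ≥0) (L : ℝ) {f : Eu d → ℝ≥0∞}
    (hf : Measurable f) (W : Set (Eu d)) (hW : MeasurableSet W) (z : Eu d) :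
    ∫⁻ ω, gq f (pt ω \ W) z ∂PL (leb lam (bal (0 : Eu d) L))
      = wt lam (Wᶜ ∩ bal (0 : Eu d) L) f z := by
  have hdom : Dom (Wᶜ ∩ bal (0 : Eu d) L) :=
    ⟨hW.compl.inter (dom_bal _ _).1, (dom_bal (0 : Eu d) L).2.subset inter_subset_right⟩
  have := finite_leb lam (dom_bal (0 : Eu d) L).2
  have := finite_leb lam hdom.2
  have := noAtoms_leb hd lam (Wᶜ ∩ bal (0 : Eu d) L)
  have hcm : CM fun Q : Set (Eu d) => gq f Q z := by
    unfold CM
    exact (meas_gq hC hM hf).comp (measurable_id.prodMk measurable_const)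
  have h1 := (hRes (Eu d) (leb lam (bal (0 : Eu d) L)) Wᶜ hW.compl).1 (fun Q => gq f Q z) hcm
  simp only [← Set.sdiff_eq] at h1
  rw [h1, leb_restrict lam _ _ hW.compl, wt_eq_wgt]
  unfold gq wgt
  have := (hProb (Eu d) (leb lam (Wᶜ ∩ bal (0 : Eu d) L))).1
  rw [lintegral_add_left measurable_const, lintegral_const, measure_univ, mul_one,
    hCamp (Eu d) _ (ad 1) f z (madj_ad 1) hf]

theorem step_le (hd : 1 ≤ d) (hSmp : SmpStatement) (hCamp : CampStatement) (hRes : ResStatement)
    (hI : InvMStatement) (hC : ConMStatement) (hD : InvDStatement) (hProb : ProbStatement)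
    (hR : MRestrStatement) (hM : MSumStatement) (lam : ℝ≥0) (th : ℕ → ℝ) (L : ℝ) (j : ℕ)
    (f F : Eu d → ℝ≥0∞) (hf : Measurable f)
    (hF : ∀ (V : Set (Eu d)) (z : Eu d), Dom V → wt lam V f z ≤ F z) :
    Measurable (fun ω : Cfg (Eu d) => FF th j f (pt ω ∩ wet (pt ω) 0 j) (pt ω \ wet (pt ω) 0 j)) ∧
    ∫⁻ ω, FF th j f (pt ω ∩ wet (pt ω) 0 j) (pt ω \ wet (pt ω) 0 j)
        ∂PL (leb lam (bal (0 : Eu d) L))
      ≤ ∫⁻ ω, ind (att (pt ω) 0 j ∧ good th (pt ω) 0 j) * nnew (pt ω) 0 j F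
        ∂PL (leb lam (bal (0 : Eu d) L)) := by
  have := finite_leb lam (dom_bal (0 : Eu d) L).2
  have := noAtoms_leb hd lam (bal (0 : Eu d) L)
  have hwm : MeasurableSet {q : Cfg (Eu d) × Eu d | q.2 ∈ wet (pt q.1) 0 j} := by
    have h := (hI d j).2.2.1
    have h2 : Measurable fun q : Cfg (Eu d) × Eu d => ((0 : Eu d), q.2, q.1) :=
      measurable_const.prodMk (measurable_snd.prodMk measurable_fst)
    exact h2 h
  have hFF := meas_FF hC hM hI th j hf
  obtain ⟨r1, hr1, hr1e⟩ := hR (Cfg (Eu d)) (Eu d) _ hwm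
  obtain ⟨r2, hr2, hr2e⟩ := hR (Cfg (Eu d)) (Eu d) _ hwm.compl
  have hr1' : ∀ ω ω' : Cfg (Eu d), pt (r1 (ω, ω')) = pt ω' ∩ wet (pt ω) 0 j := by
    intro ω ω'
    rw [hr1e]
    rfl
  have hr2' : ∀ ω ω' : Cfg (Eu d), pt (r2 (ω, ω')) = pt ω' \ wet (pt ω) 0 j := by
    intro ω ω'
    rw [hr2e]
    rfl
  constructor
  · have h3 : Measurable fun ω : Cfg (Eu d) => (r1 (ω, ω), r2 (ω, ω)) :=
      (hr1.comp (measurable_id.prodMk measurable_id)).prodMk
        (hr2.comp (measurable_id.prodMk measurable_id))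
    have h4 := hFF.comp h3
    have h5 : (fun q : Cfg (Eu d) × Cfg (Eu d) => FF th j f (pt q.1) (pt q.2)) ∘
        (fun ω : Cfg (Eu d) => (r1 (ω, ω), r2 (ω, ω)))
        = fun ω : Cfg (Eu d) =>
          FF th j f (pt ω ∩ wet (pt ω) 0 j) (pt ω \ wet (pt ω) 0 j) := by
      funext ω
      simp only [Function.comp_apply, hr1', hr2']
    rw [← h5]
    exact h4
  · rw [hSmp (Eu d) (leb lam (bal (0 : Eu d) L)) (fun P => wet P 0 j) (FF th j f)
      ((hI d j).2.2.2.2.2 0) hFF]
    refine lintegral_mono fun ω => ?_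
    have hA : (pt ω ∩ wet (pt ω) 0 j).Finite := (pt_finite ω).subset inter_subset_left
    have hWm : MeasurableSet (wet (pt ω) 0 j) := by
      have h2 : Measurable fun e : Eu d => (ω, e) := measurable_const.prodMk measurable_id
      exact h2 hwm
    have hcount := (newp_fin hD hA j).countable.to_subtype
    calc ∫⁻ ω', FF th j f (pt ω ∩ wet (pt ω) 0 j) (pt ω' \ wet (pt ω) 0 j)
          ∂PL (leb lam (bal (0 : Eu d) L))
        = ind (att (pt ω ∩ wet (pt ω) 0 j) 0 j ∧ good th (pt ω ∩ wet (pt ω) 0 j) 0 j) *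
          ∑' z : newp (pt ω ∩ wet (pt ω) 0 j) 0 j,
            ∫⁻ ω', gq f (pt ω' \ wet (pt ω) 0 j) z ∂PL (leb lam (bal (0 : Eu d) L)) := by
          unfold FF nnew
          rw [lintegral_const_mul' _ _ (ind_ne_top _), lintegral_tsum]
          intro z
          have h6 : Measurable fun ω' : Cfg (Eu d) => gq f (pt (r2 (ω, ω'))) (z : Eu d) :=
            (meas_gq hC hM hf).comp
              ((hr2.comp (measurable_const.prodMk measurable_id)).prodMk measurable_const)
          simp only [hr2'] at h6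
          exact h6.aemeasurable
      _ ≤ ind (att (pt ω ∩ wet (pt ω) 0 j) 0 j ∧ good th (pt ω ∩ wet (pt ω) 0 j) 0 j) *
          nnew (pt ω ∩ wet (pt ω) 0 j) 0 j F := by
          unfold nnew
          gcongr with z
          rw [mean_gq hd hRes hCamp hC hM hProb lam L hf _ hWm]
          exact hF _ _ ⟨hWm.compl.inter (dom_bal _ _).1,
            (dom_bal (0 : Eu d) L).2.subset inter_subset_right⟩
      _ = ind (att (pt ω) 0 j ∧ good th (pt ω) 0 j) * nnew (pt ω) 0 j F :=
          det_eq hD (pt_finite ω) j th F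

end

/-- Module ATT. -/
theorem att (hPond : PondStatement) (hSmp : SmpStatement) (hCamp : CampStatement)
    (hRes : ResStatement) (hI : InvMStatement) (hC : ConMStatement) (hD : InvDStatement)
    (hProb : ProbStatement) (hR : MRestrStatement) (hM : MSumStatement) : AttStatement := by
  intro d lam th L n f F hd hf _ hF
  have := finite_leb lam (dom_bal (0 : Eu d) L).2
  have := noAtoms_leb hd lam (bal (0 : Eu d) L)
  have hst := fun j => step_le hd hSmp hCamp hRes hI hC hD hProb hR hM lam th L j f F hf hF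
  unfold mun
  calc ∫⁻ ω, occ th (pt ω) 0 n f ∂PL (leb lam (bal (0 : Eu d) L))
      ≤ ∫⁻ ω, ∑ j ∈ Finset.range n,
          FF th j f (pt ω ∩ wet (pt ω) 0 j) (pt ω \ wet (pt ω) 0 j)
          ∂PL (leb lam (bal (0 : Eu d) L)) := by
        refine lintegral_mono_ae ?_
        have h0 := (hProb (Eu d) (leb lam (bal (0 : Eu d) L))).2 {0} (measurableSet_singleton _)
          (measure_singleton _)
        filter_upwards [h0] with ω hω
        have h00 : (0 : Eu d) ∉ pt ω := fun h => hω 0 h rfl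
        refine (hPond d (pt ω) 0 th n f (pt_finite ω) h00).trans_eq ?_
        refine Finset.sum_congr rfl fun j _ => ?_
        unfold FF
        rw [det_eq hD (pt_finite ω) j th]
        rfl
    _ = ∑ j ∈ Finset.range n, ∫⁻ ω,
          FF th j f (pt ω ∩ wet (pt ω) 0 j) (pt ω \ wet (pt ω) 0 j)
          ∂PL (leb lam (bal (0 : Eu d) L)) :=
        lintegral_finsetSum _ fun j _ => (hst j).1
    _ ≤ _ := Finset.sum_le_sum fun j _ => (hst j).2

end Pool.Agent.Lib.MP_5349a4_pr.H82
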